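import Pool.Agent.TH57.Thr.KGr

set_option autoImplicit false

/-! Projective modules over the integral group ring of a torsion-free group which are presented by
a matrix of operator norm less than `3 / √2` are stably free. -/

namespace Pool.Agent.Results.MP_551055_al.NormBelowThreshold

open TH57.Thr

theorem result (G : Type) [Group G] (htf : ∀ g : G, IsOfFinOrder g → g = 1)
    (P : Type) [AddCommGroup P] [Module (MonoidAlgebra ℤ G) P]
    (hP : Module.Projective (MonoidAlgebra ℤ G) P)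
    (m n : ℕ) (A : Matrix (Fin m) (Fin n) (MonoidAlgebra ℤ G))
    (e : P ≃ₗ[MonoidAlgebra ℤ G]
      ((Fin n → MonoidAlgebra ℤ G) ⧸ LinearMap.range A.vecMulLinear))
    (c : ℝ) (hc0 : 0 < c) (hc : c ^ 2 < 9 / 2) (hA : NormLE A c) :
    ∃ k l : ℕ, Nonempty ((P × (Fin k → MonoidAlgebra ℤ G)) ≃ₗ[MonoidAlgebra ℤ G]
      (Fin l → MonoidAlgebra ℤ G)) := by
  obtain ⟨Y, hY⟩ := regular_of_projective A P hP e
  have htf' : ∀ g : G, ∀ k : ℕ, 0 < k → g ^ k = 1 → g = 1 := fun g k hk h =>
    htf g (isOfFinOrder_iff_pow_eq_one.2 ⟨k, hk, h⟩)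
  exact free_of_SFC A (SFC_small htf' A Y hY c hc0 hc hA) P e

end Pool.Agent.Results.MP_551055_al.NormBelowThreshold
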