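import Pool.Agent.TH57.Thr.KRed

set_option autoImplicit false

/-! Every finitely presented module over an integral group ring has a presentation matrix whose
operator norm is as close to `3 / √2` as one likes. -/

namespace Pool.Agent.Results.MP_551055_al.NormReduction

open TH57.Thr

theorem result (G : Type) [Group G] (c : ℝ) (hc : 9 / 2 < c ^ 2)
    (P : Type) [AddCommGroup P] [Module (MonoidAlgebra ℤ G) P]
    (hP : Module.FinitePresentation (MonoidAlgebra ℤ G) P) :
    ∃ (m n : ℕ) (A : Matrix (Fin m) (Fin n) (MonoidAlgebra ℤ G)), NormLE A c ∧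
      Nonempty (P ≃ₗ[MonoidAlgebra ℤ G]
        ((Fin n → MonoidAlgebra ℤ G) ⧸ LinearMap.range A.vecMulLinear)) :=
  pres_red P hP c hc

end Pool.Agent.Results.MP_551055_al.NormReduction
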