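import Pool.Agent.TH254.RM.Free
import Pool.Agent.TH254.RM.Std

/-!
Projective modules over integral group rings which are generated by short vectors.

Let `G` be any group and `L` a finitely generated projective `ℤ[G]`-module. It has uniformly
positive hermitian forms, possibly singular ones (the restrictions of the standard form of a free
module). Suppose that for such a form `lam` and some integer `k ≠ 0` the subgroup of `L` generated
by the vectors of norm at most two contains `k L`. Then `L` is, up to the exponent `k`, a direct
sum of modules induced from finite subgroups of `G`. If `G` is torsion-free, `L` contains a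
finitely generated free module which contains `k L`; for `k = 1` the module `L` is free.
The definitions are in `Pool.Agent.TH254.RF.Defs` and `Pool.Agent.TH254.RM.Defs`.

Idea of the proof. Since the form is uniformly positive, a vector of bounded norm has boundedly
many nonzero coordinates, all of bounded size; hence only finitely many indecomposable vectors of
norm at most two are not orthogonal to a given vector (`Frame`). For such vectors paths of
non-orthogonal vectors can be shortened to length two, so the connected components are finite
(`Classes`); they are permuted by `G` with finite stabilisers and finitely many orbits.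
-/

set_option autoImplicit false

namespace Pool.Agent.Results.MP_551055_al.RootModules

open Pool.Agent.TH254.RF Pool.Agent.TH254.RM

universe u v

theorem result (G : Type u) [Group G] (L : Type v) [AddCommGroup L]
    [Module (MonoidAlgebra ℤ G) L] [Module.Finite (MonoidAlgebra ℤ G) L]
    [Module.Projective (MonoidAlgebra ℤ G) L] :
    -- every finitely generated projective module has uniformly positive hermitian forms
    (∃ lam : L → L → MonoidAlgebra ℤ G, IsHermitian lam ∧ UniformlyPositive lam) ∧
    ∀ lam : L → L → MonoidAlgebra ℤ G, IsHermitian lam → UniformlyPositive lam →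
    -- `k L` is contained in the subgroup generated by the vectors of norm at most two
    ∀ k : ℤ, k ≠ 0 →
    (∀ x : L, k • x ∈ AddSubgroup.closure {x : L | (lam x x).coeff 1 ≤ 2}) →
    (∃ (m : ℕ) (F : Fin m → Subgroup G) (K : Fin m → AddSubgroup L), InducedUpTo k lam F K) ∧
    -- torsion-free groups
    ((∀ (g : G) (n : ℕ), 0 < n → g ^ n = 1 → g = 1) →
      (∃ (N : ℕ) (v : Fin N → L) (C : Matrix (Fin N) (Fin N) ℤ),
        LinearIndependent (MonoidAlgebra ℤ G) v ∧
        (∀ x : L, k • x ∈ Submodule.span (MonoidAlgebra ℤ G) (Set.range v)) ∧
        ∀ i j, lam (v i) (v j) = MonoidAlgebra.single 1 (C i j)) ∧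
      (k = 1 → Module.Free (MonoidAlgebra ℤ G) L)) := by
  refine ⟨exists_form L, ?_⟩
  intro lam h hpos k hk hgen
  obtain ⟨m, F, K, hI⟩ := main_induced h hpos k hk hgen
  refine ⟨⟨m, F, K, hI⟩, fun hG => ?_⟩
  obtain ⟨N, v, C, h1, h2, h3⟩ := main_free h (positiveDefinite hpos) k hG hI
  refine ⟨⟨N, v, C, h1, h2, h3⟩, ?_⟩
  intro hk1
  subst hk1
  exact free_of_one h1 h2

end Pool.Agent.Results.MP_551055_al.RootModules
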