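import Pool.Agent.TH57.TT2.RectK

set_option autoImplicit false

/-! Projective modules over the integral group ring of a torsion-free group which have a
presentation matrix with, in every direct summand, at most as many nonzero coefficients as rows and
columns are stably free. -/

namespace Pool.Agent.Results.MP_551055_al.SparsePresentations

open TH57.Thr TH57.TT2

/-- `P` is presented by the `m × n` matrix `A` over `ℤG`. In every direct summand of `A` (a set `S`
of rows and a set `T` of columns such that a nonzero entry is in a row of `S` if and only if it is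
in a column of `T`) there are at most `|S| + |T|` nonzero coefficients. -/
theorem result (G : Type) [Group G] (htf : ∀ g : G, IsOfFinOrder g → g = 1)
    (P : Type) [AddCommGroup P] [Module (MonoidAlgebra ℤ G) P]
    (hP : Module.Projective (MonoidAlgebra ℤ G) P)
    (m n : ℕ) (A : Matrix (Fin m) (Fin n) (MonoidAlgebra ℤ G))
    (e : P ≃ₗ[MonoidAlgebra ℤ G]
      ((Fin n → MonoidAlgebra ℤ G) ⧸ LinearMap.range A.vecMulLinear))
    (hA : ∀ (S : Finset (Fin m)) (T : Finset (Fin n)), (∀ i j, A i j ≠ 0 → (i ∈ S ↔ j ∈ T)) →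
      ∑ i ∈ S, ∑ j ∈ T, (A i j).coeff.support.card ≤ S.card + T.card) :
    ∃ k l : ℕ, Nonempty ((P × (Fin k → MonoidAlgebra ℤ G)) ≃ₗ[MonoidAlgebra ℤ G]
      (Fin l → MonoidAlgebra ℤ G)) := by
  obtain ⟨Y, hY⟩ := regular_of_projective A P hP e
  have htf' : ∀ g : G, ∀ k : ℕ, 0 < k → g ^ k = 1 → g = 1 := fun g k hk h =>
    htf g (isOfFinOrder_iff_pow_eq_one.2 ⟨k, hk, h⟩)
  exact free_of_SFC A (SFC_sparse htf' A Y hY hA) P e

end Pool.Agent.Results.MP_551055_al.SparsePresentations
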